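import Mathlib

/-!
Two graphs that agree outside `S` and in which `S` is the interior of a bare `u`-`v` path
are isomorphic.
-/

namespace Pool.Agent.P.MP_9d0e7f_co.Sp

variable {V : Type} [DecidableEq V]

/-- `S` is the interior of a path from `u` to `v` through vertices of degree two. -/
structure Good (G : SimpleGraph V) (S : Finset V) (u v : V) : Prop where
  hu : u ∉ S
  hv : v ∉ S
  huv : u ≠ v
  two : ∀ s ∈ S, ∃ a b, a ≠ b ∧ ∀ x, G.Adj s x ↔ x = a ∨ x = b
  out : ∀ s ∈ S, ∀ x ∉ S, G.Adj s x → x = u ∨ x = v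
  eu : ∃ a ∈ S, ∀ s ∈ S, G.Adj s u ↔ s = a
  ev : ∃ b ∈ S, ∀ s ∈ S, G.Adj s v ↔ s = b
  conn : ∀ W ⊆ S, W.Nonempty → ∃ s ∈ W, ∃ x ∉ W, G.Adj s x

variable {G G' : SimpleGraph V} {S : Finset V} {u v a : V}

theorem Good.comap (h : Good G S u v) (π : Equiv.Perm V) (h1 : ∀ x, π x ∈ S ↔ x ∈ S)
    (h2 : ∀ x ∉ S, π x = x) : Good (G.comap π) S u v where
  hu := h.hu
  hv := h.hv
  huv := h.huv
  two s hs := by
    obtain ⟨a, b, hab, hx⟩ := h.two (π s) ((h1 s).2 hs)
    refine ⟨π.symm a, π.symm b, by simpa using hab, fun x => ?_⟩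
    rw [SimpleGraph.comap_adj, hx, Equiv.eq_symm_apply, Equiv.eq_symm_apply]
  out s hs x hx hsx := by
    rw [SimpleGraph.comap_adj, h2 x hx] at hsx
    exact h.out _ ((h1 s).2 hs) x hx hsx
  eu := by
    obtain ⟨a, ha, hs⟩ := h.eu
    refine ⟨π.symm a, (h1 _).1 (by simpa using ha), fun s hsS => ?_⟩
    rw [SimpleGraph.comap_adj, h2 u h.hu, hs _ ((h1 s).2 hsS), Equiv.eq_symm_apply]
  ev := by
    obtain ⟨a, ha, hs⟩ := h.ev
    refine ⟨π.symm a, (h1 _).1 (by simpa using ha), fun s hsS => ?_⟩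
    rw [SimpleGraph.comap_adj, h2 v h.hv, hs _ ((h1 s).2 hsS), Equiv.eq_symm_apply]
  conn W hW hne := by
    obtain ⟨s, hs, x, hx, hsx⟩ := h.conn (W.map π.toEmbedding) (fun y hy => by
      obtain ⟨z, hz, rfl⟩ := Finset.mem_map.1 hy
      exact (h1 z).2 (hW hz)) (by simpa using hne)
    obtain ⟨z, hz, rfl⟩ := Finset.mem_map.1 hs
    exact ⟨z, hz, π.symm x, by simpa using hx, by simpa using hsx⟩

theorem Good.other (h : Good G S u v) (ha : a ∈ S) (hau : ∀ s ∈ S, G.Adj s u ↔ s = a) :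
    ∃ b, b ≠ u ∧ ∀ x, G.Adj a x ↔ x = u ∨ x = b := by
  obtain ⟨c, d, hcd, hx⟩ := h.two a ha
  rcases (hx u).1 ((hau a ha).2 rfl) with rfl | rfl
  · exact ⟨d, hcd.symm, hx⟩
  · exact ⟨c, hcd, fun x => (hx x).trans or_comm⟩

theorem Good.single (h : Good G {a} u v) (x : V) : G.Adj a x ↔ x = u ∨ x = v := by
  obtain ⟨c, hc, hau⟩ := h.eu
  obtain rfl := Finset.mem_singleton.1 hc
  obtain ⟨b, -, hx⟩ := h.other hc hau
  obtain ⟨d, hd, hv⟩ := h.ev
  obtain rfl := Finset.mem_singleton.1 hd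
  rcases (hx v).1 ((hv d hd).2 rfl) with h1 | rfl
  · exact absurd h1.symm h.huv
  · exact hx x

theorem Good.step (h : Good G S u v) (ha : a ∈ S) (hau : ∀ s ∈ S, G.Adj s u ↔ s = a)
    (hne : (S.erase a).Nonempty) :
    Good G (S.erase a) a v ∧ ∀ x ∉ S, G.Adj a x ↔ x = u := by
  obtain ⟨b, hbu, hx⟩ := h.other ha hau
  obtain ⟨d, hd, hv⟩ := h.ev
  have hab : G.Adj a b := (hx b).2 (Or.inr rfl)
  have hb : b ∈ S := by
    by_contra hb
    obtain rfl : b = v := (h.out a ha b hb hab).resolve_left hbu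
    obtain ⟨s, hs, x, hxs, hsx⟩ := h.conn _ (S.erase_subset a) hne
    obtain ⟨hsa, hsS⟩ := Finset.mem_erase.1 hs
    by_cases hxa : x = a
    · subst hxa
      rcases (hx s).1 hsx.symm with rfl | rfl
      · exact h.hu hsS
      · exact hb hsS
    · rcases h.out s hsS x (fun hc => hxs (Finset.mem_erase.2 ⟨hxa, hc⟩)) hsx with rfl | rfl
      · exact hsa ((hau s hsS).1 hsx)
      · exact hsa (((hv s hsS).1 hsx).trans ((hv a ha).1 hab).symm)
  refine ⟨⟨by simp, fun hc => h.hv (S.erase_subset a hc), fun hc => h.hv (hc ▸ ha),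
    fun s hs => h.two s (S.erase_subset a hs), fun s hs x hxs hsx => ?_,
    ⟨b, Finset.mem_erase.2 ⟨hab.ne', hb⟩, fun s hs => ?_⟩,
    ⟨d, Finset.mem_erase.2 ⟨?_, hd⟩, fun s hs => hv s (S.erase_subset a hs)⟩,
    fun W hW => h.conn W (hW.trans (S.erase_subset a))⟩, fun x hxS => ?_⟩
  · obtain ⟨hsa, hsS⟩ := Finset.mem_erase.1 hs
    by_cases hxa : x = a
    · exact Or.inl hxa
    · rcases h.out s hsS x (fun hc => hxs (Finset.mem_erase.2 ⟨hxa, hc⟩)) hsx with rfl | rfl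
      · exact absurd ((hau s hsS).1 hsx) hsa
      · exact Or.inr rfl
  · rw [G.adj_comm, hx]
    exact or_iff_right fun hc => h.hu (hc ▸ S.erase_subset a hs)
  · rintro rfl
    rcases (hx v).1 ((hv d hd).2 rfl) with h1 | rfl
    · exact h.huv h1.symm
    · exact h.hv hb
  · rw [hx]
    exact or_iff_left fun hc => hxS (hc ▸ hb)

theorem glue (k : ℕ) : ∀ (S : Finset V) (G G' : SimpleGraph V) (u v : V), S.card = k + 1 →
    Good G S u v → Good G' S u v → (∀ x ∉ S, ∀ y ∉ S, G.Adj x y ↔ G'.Adj x y) →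
    Nonempty (G ≃g G') := by
  induction k with
  | zero =>
    intro S G G' u v hS h h' hag
    obtain ⟨a, rfl⟩ := Finset.card_eq_one.1 hS
    have : G = G' := by
      ext x y
      by_cases hx : x = a
      · subst hx
        rw [h.single, h'.single]
      by_cases hy : y = a
      · subst hy
        rw [G.adj_comm, G'.adj_comm, h.single, h'.single]
      exact hag x (by simpa using hx) y (by simpa using hy)
    exact ⟨this ▸ SimpleGraph.Iso.refl⟩
  | succ k ih =>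
    intro S G G' u v hS h h' hag
    obtain ⟨a, ha, hau⟩ := h.eu
    obtain ⟨a', ha', hau'⟩ := h'.eu
    have h2 : ∀ x ∉ S, Equiv.swap a a' x = x := fun x hx =>
      Equiv.swap_apply_of_ne_of_ne (fun hc => hx (hc ▸ ha)) fun hc => hx (hc ▸ ha')
    have h1 : ∀ x, Equiv.swap a a' x ∈ S ↔ x ∈ S := by
      intro x
      rw [Equiv.swap_apply_def]
      split_ifs with c1 c2
      · simp [c1, ha, ha']
      · simp [c2, ha, ha']
      · rfl
    have h'' := h'.comap (Equiv.swap a a') h1 h2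
    have hau'' : ∀ s ∈ S, (G'.comap (Equiv.swap a a')).Adj s u ↔ s = a := by
      intro s hs
      rw [SimpleGraph.comap_adj, h2 u h.hu, hau' _ ((h1 s).2 hs), Equiv.swap_apply_eq_iff,
        Equiv.swap_apply_right]
    have hc : (S.erase a).card = k + 1 := by
      rw [Finset.card_erase_of_mem ha, hS]
      rfl
    have hne : (S.erase a).Nonempty := Finset.card_pos.1 (by omega)
    obtain ⟨g1, g2⟩ := h.step ha hau hne
    obtain ⟨g1', g2'⟩ := h''.step ha hau'' hne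
    obtain ⟨e⟩ := ih _ _ _ _ _ hc g1 g1' (fun x hx y hy => by
      by_cases hxa : x = a
      · subst hxa
        by_cases hyx : y = x
        · simp [hyx]
        have hy' : y ∉ S := fun hc => hy (Finset.mem_erase.2 ⟨hyx, hc⟩)
        rw [g2 y hy', g2' y hy']
      have hx' : x ∉ S := fun hc => hx (Finset.mem_erase.2 ⟨hxa, hc⟩)
      by_cases hya : y = a
      · subst hya
        rw [G.adj_comm, SimpleGraph.adj_comm _ x, g2 x hx', g2' x hx']
      have hy' : y ∉ S := fun hc => hy (Finset.mem_erase.2 ⟨hya, hc⟩)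
      rw [SimpleGraph.comap_adj, h2 x hx', h2 y hy']
      exact hag x hx' y hy')
    exact ⟨e.trans ⟨Equiv.swap a a', Iff.rfl⟩⟩

end Pool.Agent.P.MP_9d0e7f_co.Sp
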