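import Pool.Agent.P.MP_9d0e7f_co.Sp.Kelly
import Pool.Agent.P.MP_9d0e7f_co.Sp.Glue

/-!
A graph of minimum degree two with a long bare path is determined by a small deck.
-/

namespace Pool.Agent.P.MP_9d0e7f_co.Sp

open Finset Pool.Agent.P.MP_9d0e7f_co.Log

variable {V : Type} {G G' : SimpleGraph V} {p : ℕ → V} {l : ℕ}

/-- `p 0, …, p (l + 1)` is a path of vertices of degree two. -/
structure Bare (G : SimpleGraph V) (p : ℕ → V) (l : ℕ) : Prop where
  inj : ∀ i ≤ l + 1, ∀ j ≤ l + 1, p i = p j → i = j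
  adj : ∀ i ≤ l, G.Adj (p i) (p (i + 1))
  deg : ∀ i ≤ l + 1, (G.neighborSet (p i)).ncard = 2

theorem two_of_ncard {s : V} (h : (G.neighborSet s).ncard = 2) :
    ∃ a b, a ≠ b ∧ ∀ x, G.Adj s x ↔ x = a ∨ x = b := by
  obtain ⟨a, b, hab, h⟩ := Set.ncard_eq_two.1 h
  exact ⟨a, b, hab, fun x => by simpa using Set.ext_iff.1 h x⟩

theorem Bare.nb (h : Bare G p l) {i : ℕ} (hi : i < l) (x : V) :
    G.Adj (p (i + 1)) x ↔ x = p i ∨ x = p (i + 2) := by
  obtain ⟨a, b, hab, hx⟩ := two_of_ncard (h.deg (i + 1) (by omega))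
  have h1 := (hx _).1 (h.adj i (by omega)).symm
  have h2 := (hx _).1 (h.adj (i + 1) (by omega))
  have h3 : p i ≠ p (i + 2) := fun hc => by
    have := h.inj i (by omega) (i + 2) (by omega) hc
    omega
  rw [hx]
  rcases h1 with h1 | h1 <;> rcases h2 with h2 | h2
  · exact absurd (h1.trans h2.symm) h3
  · rw [h1, h2]
  · rw [h1, h2, or_comm]
  · exact absurd (h1.trans h2.symm) h3

theorem spread {R : Set V} (hR : ∀ i < l, p (i + 1) ∈ R → p i ∈ R ∧ p (i + 2) ∈ R) {i : ℕ}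
    (hi : i < l) (h : p (i + 1) ∈ R) : ∀ j ≤ l + 1, p j ∈ R := by
  have down : ∀ d j, j + d = i + 1 → p j ∈ R := by
    intro d
    induction d with
    | zero => exact fun j hj => (show j = i + 1 from hj) ▸ h
    | succ d ih => exact fun j hj => (hR j (by omega) (ih (j + 1) (by omega))).1
  have up : ∀ d, i + 1 + d ≤ l + 1 → p (i + 1 + d) ∈ R := by
    intro d
    induction d with
    | zero => exact fun _ => h
    | succ d ih =>
      intro hd
      have h1 := ih (by omega)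
      rw [show i + 1 + d = i + d + 1 by omega] at h1
      rw [show i + 1 + (d + 1) = i + d + 2 by omega]
      exact (hR (i + d) (by omega) h1).2
  intro j hj
  rcases le_total j (i + 1) with hc | hc
  · exact down (i + 1 - j) j (by omega)
  · have := up (j - (i + 1)) (by omega)
    rwa [show i + 1 + (j - (i + 1)) = j by omega] at this

variable [DecidableEq V]

/-- The interior of the path. -/
def inn (p : ℕ → V) (l : ℕ) : Finset V := (range l).image fun i => p (i + 1)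

theorem mem_inn {s : V} : s ∈ inn p l ↔ ∃ i < l, p (i + 1) = s := by
  simp [inn]

theorem Bare.card_inn (h : Bare G p l) : (inn p l).card = l := by
  rw [inn, card_image_of_injOn, card_range]
  intro i hi j hj hij
  have h1 := mem_range.1 (mem_coe.1 hi)
  have h2 := mem_range.1 (mem_coe.1 hj)
  have := h.inj _ (by omega) _ (by omega) hij
  omega

theorem Bare.good (h : Bare G p l) (hl : 0 < l) : Good G (inn p l) (p 0) (p (l + 1)) := by
  have key : ∀ i ≤ l + 1, ∀ j ≤ l + 1, p i = p j ↔ i = j :=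
    fun i hi j hj => ⟨h.inj i hi j hj, congrArg p⟩
  have hu : p 0 ∉ inn p l := fun hc => by
    obtain ⟨i, hi, he⟩ := mem_inn.1 hc
    have := h.inj _ (by omega) _ (by omega) he
    omega
  refine ⟨hu, fun hc => ?_, fun hc => ?_, fun s hs => ?_, fun s hs x hx hsx => ?_,
    ⟨p 1, mem_inn.2 ⟨0, hl, rfl⟩, fun s hs => ?_⟩,
    ⟨p l, mem_inn.2 ⟨l - 1, by omega, by rw [Nat.sub_add_cancel hl]⟩, fun s hs => ?_⟩,
    fun W hW hne => ?_⟩
  · obtain ⟨i, hi, he⟩ := mem_inn.1 hc
    have := h.inj _ (by omega) _ (by omega) he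
    omega
  · have := h.inj _ (by omega) _ (by omega) hc
    omega
  · obtain ⟨i, hi, rfl⟩ := mem_inn.1 hs
    exact two_of_ncard (h.deg _ (by omega))
  · obtain ⟨i, hi, rfl⟩ := mem_inn.1 hs
    rcases (h.nb hi x).1 hsx with rfl | rfl
    · rcases i with _ | i
      · exact Or.inl rfl
      · exact absurd (mem_inn.2 ⟨i, by omega, rfl⟩) hx
    · by_cases hc : i + 1 = l
      · exact Or.inr (by rw [← hc])
      · exact absurd (mem_inn.2 ⟨i + 1, by omega, rfl⟩) hx
  · obtain ⟨i, hi, rfl⟩ := mem_inn.1 hs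
    rw [h.nb hi, key _ (by omega) _ (by omega), key _ (by omega) _ (by omega),
      key _ (by omega) _ (by omega)]
    omega
  · obtain ⟨i, hi, rfl⟩ := mem_inn.1 hs
    rw [h.nb hi, key _ (by omega) _ (by omega), key _ (by omega) _ (by omega),
      key _ (by omega) _ (by omega)]
    omega
  · by_contra hc
    push Not at hc
    have hcl : ∀ s ∈ W, ∀ x, G.Adj s x → x ∈ W := fun s hs x hx =>
      by_contra fun hxW => hc s hs x hxW hx
    obtain ⟨s, hs⟩ := hne
    obtain ⟨i, hi, rfl⟩ := mem_inn.1 (hW hs)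
    exact hu (hW (spread (R := (W : Set V)) (fun j hj hjW =>
      ⟨hcl _ hjW _ ((h.nb hj _).2 (Or.inl rfl)), hcl _ hjW _ ((h.nb hj _).2 (Or.inr rfl))⟩)
      hi hs 0 (by omega)))

omit [DecidableEq V] in
theorem deg_eq [Fintype V] {d d' : V → ℕ}
    (h1 : ∑ x, (d x).descFactorial 1 = ∑ x, (d' x).descFactorial 1)
    (h2 : ∑ x, (d x).descFactorial 2 = ∑ x, (d' x).descFactorial 2)
    (h : ∀ x, d x = 2 ∨ (2 ≤ d x ∧ d x ≤ d' x)) (x : V) : d' x = d x := by
  have key : ∀ e : V → ℕ, ∑ x, ((e x : ℤ) - 2) ^ 2 =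
      (∑ x, (e x).descFactorial 2 : ℕ) - 3 * (∑ x, (e x).descFactorial 1 : ℕ) +
        ∑ _x : V, (4 : ℤ) := by
    intro e
    rw [Nat.cast_sum, Nat.cast_sum, mul_sum, ← sum_sub_distrib, ← sum_add_distrib]
    refine sum_congr rfl fun x _ => ?_
    rw [Nat.cast_descFactorial_two, Nat.descFactorial_one]
    ring
  have h3 : ∑ x, ((d x : ℤ) - 2) ^ 2 = ∑ x, ((d' x : ℤ) - 2) ^ 2 := by rw [key, key, h1, h2]
  have h4 := (sum_eq_sum_iff_of_le (fun y _ => by
    rcases h y with hy | hy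
    · rw [hy]
      simpa using sq_nonneg _
    · exact pow_le_pow_left₀ (by omega) (by omega) 2)).1 h3 x (mem_univ x)
  rcases h x with hy | hy
  · rw [hy] at h4 ⊢
    have : (d' x : ℤ) - 2 = 0 := pow_eq_zero_iff (two_ne_zero) |>.1 (by rw [← h4]; simp)
    omega
  · have := (pow_left_inj₀ (by omega) (by omega) two_ne_zero).1 h4
    omega

theorem Bare.iso [Fintype V] (h : Bare G p l) (hl : 0 < l)
    (hd : (∀ x, 2 ≤ (G.neighborSet x).ncard) ∨ ∀ x, 2 ≤ (G'.neighborSet x).ncard)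
    (hag : ∀ x ∉ inn p l, ∀ y ∉ inn p l, G.Adj x y ↔ G'.Adj x y)
    (hK : ∀ (ι : Type) [Fintype ι] (Q : SimpleGraph ι → Prop),
      Fintype.card ι ≤ 3 ∨ Fintype.card ι < l → (tup Q G).card = (tup Q G').card) :
    Nonempty (G ≃g G') := by
  have g := h.good hl
  have hS := h.card_inn
  set S := inn p l with hSd
  have e1 := hK (Option (Fin 1)) (fun H => ∀ i, H.Adj none (some i)) (by simp)
  have e2 := hK (Option (Fin 2)) (fun H => ∀ i, H.Adj none (some i)) (by simp)
  rw [card_tup_star, card_tup_star, Fintype.card_fin] at e1 e2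
  have hle : ∀ x, (G.neighborSet x).ncard = 2 ∨
      (G.neighborSet x).ncard ≤ (G'.neighborSet x).ncard := fun x => by
    by_cases hx : x ∈ S
    · obtain ⟨i, hi, rfl⟩ := mem_inn.1 hx
      exact Or.inl (h.deg _ (by omega))
    by_cases hxu : x = p 0
    · exact Or.inl (hxu ▸ h.deg _ (by omega))
    by_cases hxv : x = p (l + 1)
    · exact Or.inl (hxv ▸ h.deg _ le_rfl)
    refine Or.inr (Set.ncard_le_ncard (fun y hy => ?_))
    exact (hag x hx y fun hyS => (g.out y hyS x hx (G.adj_symm hy)).elim hxu hxv).1 hy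
  have hdeg : ∀ x, (G'.neighborSet x).ncard = (G.neighborSet x).ncard := by
    rcases hd with hd | hd
    · exact deg_eq e1 e2 fun x => (hle x).imp_right fun hx => ⟨hd x, hx⟩
    · simp only [Nat.descFactorial_one] at e1
      exact fun x => ((sum_eq_sum_iff_of_le fun y _ =>
        (hle y).elim (fun hy => hy ▸ hd y) id).1 e1 x (mem_univ x)).symm
  have hin : ∀ x ∉ S, (G'.neighborSet x ∩ S).ncard = (G.neighborSet x ∩ S).ncard := by
    intro x hx
    have a1 := Set.ncard_inter_add_ncard_sdiff_eq_ncard (G.neighborSet x) S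
    have a2 := Set.ncard_inter_add_ncard_sdiff_eq_ncard (G'.neighborSet x) S
    have a3 : G.neighborSet x \ S = G'.neighborSet x \ S := by
      ext y
      exact ⟨fun hy => ⟨(hag x hx y hy.2).1 hy.1, hy.2⟩, fun hy => ⟨(hag x hx y hy.2).2 hy.1, hy.2⟩⟩
    have a4 := hdeg x
    rw [a3] at a1
    omega
  have hone : ∀ x ∉ S, (∃ a ∈ S, ∀ s ∈ S, G.Adj s x ↔ s = a) →
      ∃ a ∈ S, ∀ s ∈ S, G'.Adj s x ↔ s = a := by
    rintro x hx ⟨a, ha, hs⟩
    have b1 : G.neighborSet x ∩ S = {a} := by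
      ext y
      exact ⟨fun hy => (hs y hy.2).1 (G.adj_symm hy.1), fun hy => by
        obtain rfl : y = a := hy
        exact ⟨G.adj_symm ((hs y ha).2 rfl), ha⟩⟩
    have b2 := hin x hx
    rw [b1, Set.ncard_singleton] at b2
    obtain ⟨a', ha'⟩ := Set.ncard_eq_one.1 b2
    have b3 : ∀ y, G'.Adj x y ∧ y ∈ S ↔ y = a' := fun y => Set.ext_iff.1 ha' y
    exact ⟨a', ((b3 a').2 rfl).2, fun s hsS => by rw [← b3, G'.adj_comm]; simp [hsS]⟩
  have two' : ∀ s ∈ S, ∃ a b, a ≠ b ∧ ∀ x, G'.Adj s x ↔ x = a ∨ x = b := by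
    intro s hs
    obtain ⟨i, hi, rfl⟩ := mem_inn.1 hs
    exact two_of_ncard ((hdeg _).trans (h.deg _ (by omega)))
  refine glue (l - 1) S G G' _ _ (by omega) g ⟨g.hu, g.hv, g.huv, two', fun s hs x hx hsx => ?_,
    hone _ g.hu g.eu, hone _ g.hv g.ev, fun W hW hne => ?_⟩ hag
  · by_contra hc
    have b1 : G.neighborSet x ∩ S = ∅ :=
      Set.eq_empty_of_forall_notMem fun y hy => hc (g.out y hy.2 x hx (G.adj_symm hy.1))
    have b2 := hin x hx
    rw [b1, Set.ncard_empty, Set.ncard_eq_zero] at b2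
    exact Set.eq_empty_iff_forall_notMem.1 b2 s ⟨G'.adj_symm hsx, hs⟩
  · by_contra hc
    push Not at hc
    have hcl : ∀ s ∈ W, ∀ x, G'.Adj s x → x ∈ W := fun s hs x hx =>
      by_contra fun hxW => hc s hs x hxW hx
    obtain ⟨a, ha, hau⟩ := hone _ g.hu g.eu
    have hlt : Fintype.card W < l := by
      rw [Fintype.card_coe, ← hS]
      exact card_lt_card ⟨hW, fun hSW => g.hu (hW (hcl a (hSW ha) _ ((hau a ha).2 rfl)))⟩
    let Q : SimpleGraph W → Prop := fun H => ∀ i, ∃ j k, j ≠ k ∧ H.Adj i j ∧ H.Adj i k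
    have hav : ∀ f ∈ tup Q G, ∀ w, f w ∉ S := by
      intro f hf w hw
      obtain ⟨i, hi, he⟩ := mem_inn.1 hw
      have hall := spread (p := p) (R := Set.range f) (fun j hj ⟨z, hz⟩ => by
        obtain ⟨b, c, hbc, h1, h2⟩ := mem_tup.1 hf z
        rw [SimpleGraph.comap_adj, hz, h.nb hj] at h1 h2
        rcases h1 with h1 | h1 <;> rcases h2 with h2 | h2
        · exact absurd (f.injective (h1.trans h2.symm)) hbc
        · exact ⟨⟨b, h1⟩, c, h2⟩
        · exact ⟨⟨c, h2⟩, b, h1⟩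
        · exact absurd (f.injective (h1.trans h2.symm)) hbc) hi ⟨w, he.symm⟩
      have hsub : S ⊆ univ.map f := fun s hs => by
        obtain ⟨j, hj, rfl⟩ := mem_inn.1 hs
        obtain ⟨z, hz⟩ := hall (j + 1) (by omega)
        exact mem_map.2 ⟨z, mem_univ _, hz⟩
      have := card_le_card hsub
      rw [card_map, card_univ] at this
      omega
    refine (card_lt_card (s := tup Q G) (t := tup Q G') ⟨fun f hf => ?_, fun hsub => ?_⟩).ne
      (hK W Q (Or.inr hlt))
    · have : G'.comap f = G.comap f := by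
        ext i j
        exact (hag _ (hav f hf i) _ (hav f hf j)).symm
      rw [mem_tup, this]
      exact mem_tup.1 hf
    · obtain ⟨s, hs⟩ := hne
      refine hav (Function.Embedding.subtype _) (hsub (mem_tup.2 fun i => ?_)) ⟨s, hs⟩ (hW hs)
      obtain ⟨b, c, hbc, hx⟩ := two' i.1 (hW i.2)
      have hb := (hx b).2 (Or.inl rfl)
      have hc' := (hx c).2 (Or.inr rfl)
      exact ⟨⟨b, hcl _ i.2 _ hb⟩, ⟨c, hcl _ i.2 _ hc'⟩, fun he => hbc (congrArg Subtype.val he),
        hb, hc'⟩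

theorem Bare.recon {n : ℕ} {G G' : SimpleGraph (Fin n)} {p : ℕ → Fin n} (h : Bare G p l)
    (hd : (∀ x, 2 ≤ (G.neighborSet x).ncard) ∨ ∀ x, 2 ≤ (G'.neighborSet x).ncard)
    (h3 : l + 3 ≤ n) (h2 : 2 * l ≤ n + 1)
    (he : deck G (n - l) = deck G' (n - l)) : Nonempty (G ≃g G') := by
  obtain ⟨π, hπ⟩ := exists_relabel he (inn p l)ᶜ (by rw [card_compl, h.card_inn]; simp)
  let e : G'.comap π ≃g G' := ⟨π, Iff.rfl⟩
  rcases Nat.eq_zero_or_pos l with rfl | hl
  · exact ⟨⟨π, fun {x y} => (hπ x (by simp [inn]) y (by simp [inn])).symm⟩⟩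
  obtain ⟨f⟩ := h.iso (G' := G'.comap π) hl (hd.imp_right fun hd x => by
      have : (G'.comap π).neighborSet x = π ⁻¹' G'.neighborSet (π x) := rfl
      rw [this, Set.ncard_preimage_of_injective_subset_range π.injective (by simp)]
      exact hd _)
    (fun x hx y hy => hπ x (mem_compl.2 hx) y (mem_compl.2 hy))
    (fun ι _ Q hι => (kelly Q he (by omega) (by omega)).trans (card_tup_iso Q e).symm)
  exact ⟨f.trans e⟩

end Pool.Agent.P.MP_9d0e7f_co.Sp
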