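import Mathlib

/-!
Paths through vertices of degree two.
-/

namespace Pool.Agent.P.MP_9d0e7f_co.Sp

/-- `G` has a path on exactly `m` vertices, each of which has degree two in `G`. -/
def HasBarePath {V : Type} (G : SimpleGraph V) (m : ℕ) : Prop :=
  ∃ (u v : V) (w : G.Walk u v), w.IsPath ∧ w.support.length = m ∧
    ∀ x ∈ w.support, (G.neighborSet x).ncard = 2

end Pool.Agent.P.MP_9d0e7f_co.Sp
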