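import Pool.Agent.P.MP_9d0e7f_co.Log.Defs

/-!
Kelly's counting lemma for injective tuples.
-/

namespace Pool.Agent.P.MP_9d0e7f_co.Sp

open Finset Pool.Agent.P.MP_9d0e7f_co.Log

open Classical in
/-- The injective `ι`-tuples of vertices whose induced labelled graph satisfies `Q`. -/
noncomputable def tup {ι V : Type} [Fintype ι] [Fintype V] (Q : SimpleGraph ι → Prop)
    (G : SimpleGraph V) : Finset (ι ↪ V) :=
  univ.filter fun f => Q (G.comap f)

theorem mem_tup {ι V : Type} [Fintype ι] [Fintype V] {Q : SimpleGraph ι → Prop}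
    {G : SimpleGraph V} {f : ι ↪ V} : f ∈ tup Q G ↔ Q (G.comap f) := by
  simp [tup]

theorem card_tup_iso {ι V W : Type} [Fintype ι] [Fintype V] [Fintype W]
    (Q : SimpleGraph ι → Prop) {A : SimpleGraph V} {B : SimpleGraph W} (e : A ≃g B) :
    (tup Q A).card = (tup Q B).card := by
  refine card_bijective (fun f => f.trans e.toEquiv.toEmbedding)
    (Equiv.embeddingCongr (Equiv.refl ι) e.toEquiv).bijective fun f => ?_
  rw [mem_tup, mem_tup]
  have : B.comap (f.trans e.toEquiv.toEmbedding) = A.comap f := by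
    ext i j
    exact e.map_adj_iff
  rw [this]

open Classical in
theorem card_tup_card {ι : Type} [Fintype ι] {n t : ℕ} (Q : SimpleGraph ι → Prop)
    (G : SimpleGraph (Fin n)) (S : Finset (Fin n)) (hS : S.card = t) :
    (tup Q (G.comap (S.orderEmbOfFin hS))).card =
      ((tup Q G).filter fun f => univ.map f ⊆ S).card := by
  refine card_bij (fun g _ => g.trans (S.orderEmbOfFin hS).toEmbedding) ?_ ?_ ?_
  · intro g hg
    rw [mem_filter, mem_tup]
    rw [mem_tup] at hg
    refine ⟨hg, fun x hx => ?_⟩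
    obtain ⟨i, -, rfl⟩ := mem_map.1 hx
    exact S.orderEmbOfFin_mem hS _
  · intro g _ g' _ h
    ext i
    have := DFunLike.congr_fun h i
    exact congrArg Fin.val ((S.orderEmbOfFin hS).injective this)
  · intro f hf
    rw [mem_filter, mem_tup] at hf
    have hm : ∀ i, f i ∈ S := fun i => hf.2 (mem_map_of_mem _ (mem_univ i))
    let g : ι ↪ Fin t := ⟨fun i => (S.orderIsoOfFin hS).symm ⟨f i, hm i⟩, fun i j h =>
      f.injective (congrArg Subtype.val ((S.orderIsoOfFin hS).symm.injective h))⟩
    have hg : g.trans (S.orderEmbOfFin hS).toEmbedding = f := by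
      ext i
      have : S.orderEmbOfFin hS (g i) = f i := by
        rw [← Finset.coe_orderIsoOfFin_apply]
        exact congrArg Subtype.val ((S.orderIsoOfFin hS).apply_symm_apply _)
      exact congrArg Fin.val this
    refine ⟨g, ?_, hg⟩
    rw [mem_tup]
    have h2 := hf.1
    rw [← hg] at h2
    exact h2

theorem sum_card_tup {ι : Type} [Fintype ι] {n t : ℕ} (Q : SimpleGraph ι → Prop)
    (G : SimpleGraph (Fin n)) (ht : Fintype.card ι ≤ t) :
    ∑ S : {S : Finset (Fin n) // S.card = t}, (tup Q (G.comap (S.1.orderEmbOfFin S.2))).card =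
      (tup Q G).card * (n - Fintype.card ι).choose (t - Fintype.card ι) := by
  classical
  simp only [card_tup_card, card_filter]
  rw [sum_comm, ← smul_eq_mul, ← sum_const]
  refine sum_congr rfl fun f _ => ?_
  have h := card_filter_powersetCard_subset (univ.map f) univ t (subset_univ _) (by simpa using ht)
  simp only [card_univ, Fintype.card_fin, card_map] at h
  rw [← h, card_filter]
  symm
  exact sum_subtype (powersetCard t univ) (by simp) fun S => if univ.map f ⊆ S then 1 else 0

/-- Kelly's lemma. -/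
theorem kelly {ι : Type} [Fintype ι] {n t : ℕ} (Q : SimpleGraph ι → Prop)
    {G G' : SimpleGraph (Fin n)} (h : deck G t = deck G' t) (ht : Fintype.card ι ≤ t)
    (htn : t ≤ n) : (tup Q G).card = (tup Q G').card := by
  let g : Quotient (isoSetoid t) → ℕ :=
    Quotient.lift (fun A => (tup Q A).card) fun _ _ ⟨e⟩ => card_tup_iso Q e
  have h1 := congrArg (fun M => (M.map g).sum) h
  simp only [deck, Multiset.map_map] at h1
  have h2 : ∑ S : {S : Finset (Fin n) // S.card = t},
      (tup Q (G.comap (S.1.orderEmbOfFin S.2))).card =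
      ∑ S : {S : Finset (Fin n) // S.card = t},
      (tup Q (G'.comap (S.1.orderEmbOfFin S.2))).card := h1
  rw [sum_card_tup Q G ht, sum_card_tup Q G' ht] at h2
  exact Nat.eq_of_mul_eq_mul_right (Nat.choose_pos (by omega)) h2

/-- A card of `G` is a card of `G'`, after a relabelling. -/
theorem exists_relabel {n t : ℕ} {G G' : SimpleGraph (Fin n)} (h : deck G t = deck G' t)
    (T : Finset (Fin n)) (hT : T.card = t) :
    ∃ π : Equiv.Perm (Fin n), ∀ x ∈ T, ∀ y ∈ T, G.Adj x y ↔ G'.Adj (π x) (π y) := by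
  have h1 : Quotient.mk (isoSetoid t) (G.comap (T.orderEmbOfFin hT)) ∈ deck G' t := by
    rw [← h]
    exact Multiset.mem_map.2 ⟨⟨T, hT⟩, mem_univ_val _, rfl⟩
  obtain ⟨S, -, hS⟩ := Multiset.mem_map.1 h1
  obtain ⟨e⟩ := Quotient.exact hS.symm
  obtain ⟨π, hπ⟩ := Equiv.Perm.exists_extending_pair _ _ (T.orderEmbOfFin hT).injective
    ((S.1.orderEmbOfFin S.2).injective.comp e.injective)
  refine ⟨π, fun x hx y hy => ?_⟩
  have hr := T.range_orderEmbOfFin hT
  obtain ⟨i, rfl⟩ : x ∈ Set.range (T.orderEmbOfFin hT) := by rw [hr]; exact hx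
  obtain ⟨j, rfl⟩ : y ∈ Set.range (T.orderEmbOfFin hT) := by rw [hr]; exact hy
  rw [hπ, hπ]
  exact (e.map_adj_iff (v := i) (w := j)).symm

/-- Stars. -/
theorem card_tup_star {α V : Type} [Fintype α] [Fintype V] (G : SimpleGraph V) :
    (tup (fun H : SimpleGraph (Option α) => ∀ i, H.Adj none (some i)) G).card =
      ∑ x, (G.neighborSet x).ncard.descFactorial (Fintype.card α) := by
  classical
  let e : {f : Option α ↪ V // ∀ i, G.Adj (f none) (f (some i))} ≃
      Σ x : V, α ↪ G.neighborSet x :=
    { toFun := fun f => ⟨f.1 none, ⟨fun i => ⟨f.1 (some i), f.2 i⟩, fun i j h =>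
        Option.some_injective _ (f.1.injective (congrArg Subtype.val h))⟩⟩
      invFun := fun x => ⟨⟨fun o => o.elim x.1 fun i => (x.2 i).1, by
        rintro (_ | i) (_ | j) h
        · rfl
        · exact absurd h (x.2 j).2.ne
        · exact absurd h (x.2 i).2.ne'
        · exact congrArg some (x.2.injective (Subtype.ext h))⟩, fun i => (x.2 i).2⟩
      left_inv := fun f => by
        ext (_ | i) <;> rfl
      right_inv := fun _ => rfl }
  have h := Fintype.card_congr e
  rw [Fintype.card_sigma, Fintype.card_subtype] at h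
  simp only [Fintype.card_embedding_eq] at h
  rw [tup]
  convert h using 2
  · ext f
    simp
  · rw [← Set.toFinset_card, Set.ncard_eq_toFinset_card']

end Pool.Agent.P.MP_9d0e7f_co.Sp
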