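import Pool.Agent.P.MP_9d0e7f_co.Sp.Bare
import Pool.Agent.P.MP_9d0e7f_co.Sp.Defs
import Pool.Agent.P.MP_9d0e7f_co.Log.Main
import Pool.Agent.P.MP_9d0e7f_co.Deck

/-!
Sparse Hamiltonian graphs, and the sharpness of the bare path bound.
-/

namespace Pool.Agent.P.MP_9d0e7f_co.Sp

open Finset Pool.Agent.P.MP_9d0e7f_co.Log

theorem partA {n l : ℕ} {G G' : SimpleGraph (Fin n)} (h3 : l + 3 ≤ n) (h2 : 2 * l ≤ n + 1)
    (hd : (∀ x, 2 ≤ (G.neighborSet x).ncard) ∨ ∀ x, 2 ≤ (G'.neighborSet x).ncard)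
    (hp : HasBarePath G (l + 2))
    (he : deck G (n - l) = deck G' (n - l)) : Nonempty (G ≃g G') := by
  obtain ⟨u, v, w, hw, hl, hx⟩ := hp
  rw [w.length_support] at hl
  exact Bare.recon (p := w.getVert) ⟨fun i hi j hj h => hw.getVert_injOn
    (show i ≤ w.length by omega) (show j ≤ w.length by omega) h,
    fun i hi => w.adj_getVert_succ (by omega), fun i _ => hx _ (w.getVert_mem_support i)⟩ hd h3 h2 he

theorem ham_bare {V : Type} [Fintype V] [DecidableEq V] {G : SimpleGraph V} {v : V}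
    {c : G.Walk v v} (hc : c.IsHamiltonianCycle) :
    (∀ x, 2 ≤ (G.neighborSet x).ncard) ∧ ∀ l, l + 1 < Fintype.card V →
      (l + 2) * (univ.filter fun x => (G.neighborSet x).ncard ≠ 2).card < Fintype.card V →
      ∃ p, Bare G p l := by
  obtain ⟨f, hadj, hne, hcyc⟩ := exists_succ_of_ham G hc
  refine ⟨fun x => ?_, fun l hl hB => ?_⟩
  · have h1 : f x ≠ f.symm x := fun h => hne x (by rw [h]; simp)
    rw [← Set.ncard_pair h1]
    refine Set.ncard_le_ncard ?_
    rintro y (rfl | rfl)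
    · exact hadj x
    · simpa using (hadj (f.symm x)).symm
  set B := univ.filter fun x => (G.neighborSet x).ncard ≠ 2 with hBd
  have hU : ((range (l + 2)).biUnion fun i => B.image (f ^ i).symm).card < (univ : Finset V).card := by
    refine lt_of_le_of_lt (card_biUnion_le_card_mul _ _ B.card fun _ _ => card_image_le) ?_
    rwa [card_range, card_univ]
  obtain ⟨x, -, hx⟩ := exists_mem_notMem_of_card_lt_card hU
  have key : ∀ i j, i < j → j ≤ l + 1 → (f ^ i) x ≠ (f ^ j) x := by
    intro i j hij hj he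
    obtain ⟨d, rfl⟩ := Nat.exists_eq_add_of_lt hij
    rw [add_assoc, pow_add, Equiv.Perm.mul_apply] at he
    have h1 := (f ^ i).injective he
    have h2 := hcyc ((range (d + 1)).image fun r => (f ^ r) x : Finset V)
      ⟨x, mem_coe.2 (mem_image.2 ⟨0, by simp, by simp⟩)⟩ (fun y hy => by
        obtain ⟨r, hr, rfl⟩ := mem_image.1 (mem_coe.1 hy)
        rw [← Equiv.Perm.mul_apply, ← pow_succ']
        refine mem_coe.2 (mem_image.2 ?_)
        by_cases hrd : r = d
        · exact ⟨0, by simp, by rw [hrd, ← h1]; simp⟩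
        · exact ⟨r + 1, by have := mem_range.1 hr; exact mem_range.2 (by omega), rfl⟩)
    have h3 := (card_le_card (s := univ) fun y _ => mem_coe.1 (h2 y)).trans card_image_le
    rw [card_univ, card_range] at h3
    omega
  refine ⟨fun i => (f ^ i) x, fun i hi j hj he => ?_, fun i _ => ?_, fun i hi => ?_⟩
  · rcases lt_trichotomy i j with h | h | h
    · exact absurd he (key i j h hj)
    · exact h
    · exact absurd he.symm (key j i h hi)
  · rw [pow_succ', Equiv.Perm.mul_apply]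
    exact hadj _
  · by_contra hc
    exact hx (mem_biUnion.2 ⟨i, mem_range.2 (by omega),
      mem_image.2 ⟨(f ^ i) x, by simpa [hBd] using hc, by simp⟩⟩)

theorem sum_deg {V : Type} [Fintype V] (G : SimpleGraph V) :
    ∑ x, (G.neighborSet x).ncard = 2 * G.edgeSet.ncard := by
  classical
  rw [Set.ncard_eq_toFinset_card' G.edgeSet]
  refine (sum_congr rfl fun x _ => ?_).trans G.sum_degrees_eq_twice_card_edges
  rw [Set.ncard_eq_toFinset_card', Set.toFinset_card, G.card_neighborSet_eq_degree]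

theorem hamCount_le {n : ℕ} {G G' : SimpleGraph (Fin n)} (e : G ≃g G') :
    hamCount G ≤ hamCount G' := by
  refine Set.ncard_le_ncard_of_injOn (SimpleGraph.Subgraph.map e.toHom) ?_ ?_
  · rintro H ⟨v, p, hp, rfl⟩
    exact ⟨_, p.map e.toHom, hp.map e.bijective, p.toSubgraph_map _⟩
  · have key : ∀ H : G.Subgraph, (H.map e.toHom).map e.symm.toHom = H := fun H => by
      rw [← SimpleGraph.Subgraph.map_comp]
      convert H.map_id
      ext x
      simp
    intro H _ K _ h
    rw [← key H, h, key]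

theorem sparse_iso {n l k : ℕ} {G G' : SimpleGraph (Fin n)} (hk : 1 ≤ k)
    (hn : 2 * k * (l + 2) < n) (hE : G.edgeSet.ncard ≤ n + k) (hG : hamCount G ≠ 0)
    (he : deck G (n - l) = deck G' (n - l)) : hamCount G = hamCount G' := by
  obtain ⟨v, c, hc⟩ := not_not.1 (mt hamCount_eq_zero.2 hG)
  obtain ⟨hd, hb⟩ := ham_bare hc
  have h0 : 2 * (l + 2) ≤ 2 * k * (l + 2) := Nat.mul_le_mul_right _ (by omega)
  have h1 : ∑ x : Fin n, (2 + if (G.neighborSet x).ncard ≠ 2 then 1 else 0) ≤
      ∑ x, (G.neighborSet x).ncard := sum_le_sum fun x _ => by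
    have := hd x
    split_ifs <;> omega
  rw [sum_deg, sum_add_distrib, ← card_filter, sum_const, card_univ, Fintype.card_fin,
    smul_eq_mul] at h1
  obtain ⟨p, hp⟩ := hb l (by rw [Fintype.card_fin]; omega) (by
    rw [Fintype.card_fin, mul_comm]
    exact lt_of_le_of_lt (Nat.mul_le_mul_right _ (by omega)) hn)
  obtain ⟨e⟩ := hp.recon (Or.inl hd) (by omega) (by omega) he
  exact le_antisymm (hamCount_le e) (hamCount_le e.symm)

theorem partB {n l k : ℕ} {G G' : SimpleGraph (Fin n)} (hk : 1 ≤ k)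
    (hn : 2 * k * (l + 2) < n) (hE : G.edgeSet.ncard ≤ n + k)
    (he : deck G (n - l) = deck G' (n - l)) : hamCount G = hamCount G' := by
  by_cases hG : hamCount G = 0
  · by_cases hG' : hamCount G' = 0
    · rw [hG, hG']
    have h0 : 2 * (l + 2) ≤ 2 * k * (l + 2) := Nat.mul_le_mul_right _ (by omega)
    have e1 := kelly (fun H : SimpleGraph (Option (Fin 1)) => ∀ i, H.Adj none (some i)) he
      (by simp; omega) (by omega)
    simp only [card_tup_star, Fintype.card_fin, Nat.descFactorial_one, sum_deg] at e1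
    exact (sparse_iso hk hn (by omega) hG' he.symm).symm
  · exact sparse_iso hk hn hE hG he

theorem partA' {n l : ℕ} {G G' : SimpleGraph (Fin n)} (h3 : l + 3 ≤ n) (h2 : 2 * l ≤ n + 1)
    (hp : HasBarePath G (l + 2)) (he : deck G (n - l) = deck G' (n - l)) :
    hamCount G = hamCount G' := by
  by_contra hne
  have hd : (∀ x, 2 ≤ (G.neighborSet x).ncard) ∨ ∀ x, 2 ≤ (G'.neighborSet x).ncard := by
    by_cases hG : hamCount G = 0
    · obtain ⟨v, c, hc⟩ := not_not.1 (mt hamCount_eq_zero.2 fun hG' => hne (hG.trans hG'.symm))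
      exact Or.inr (ham_bare hc).1
    · obtain ⟨v, c, hc⟩ := not_not.1 (mt hamCount_eq_zero.2 hG)
      exact Or.inl (ham_bare hc).1
  obtain ⟨e⟩ := partA h3 h2 hd hp he
  exact hne (le_antisymm (hamCount_le e) (hamCount_le e.symm))

theorem walk_of {V : Type} {G : SimpleGraph V} (k : ℕ) : ∀ p : ℕ → V,
    (∀ i < k, G.Adj (p i) (p (i + 1))) → (∀ i ≤ k, ∀ j ≤ k, p i = p j → i = j) →
    ∃ w : G.Walk (p 0) (p k), w.IsPath ∧ w.length = k ∧ ∀ x ∈ w.support, ∃ i ≤ k, p i = x := by
  induction k with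
  | zero => exact fun p _ _ => ⟨.nil, by simp, rfl, fun x hx => ⟨0, le_rfl, by simp_all⟩⟩
  | succ k ih =>
    intro p h1 h2
    obtain ⟨w, hw, hl, hs⟩ := ih (fun i => p (i + 1)) (fun i hi => h1 (i + 1) (by omega))
      (fun i hi j hj h => by
        have := h2 (i + 1) (by omega) (j + 1) (by omega) h
        omega)
    refine ⟨.cons (h1 0 (by omega)) w, (SimpleGraph.Walk.cons_isPath_iff _ _).2 ⟨hw, fun hc => ?_⟩,
      by simp [hl], fun x hx => ?_⟩
    · obtain ⟨i, hi, he⟩ := hs _ hc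
      have := h2 (i + 1) (by omega) 0 (by omega) he
      omega
    · rcases List.mem_cons.1 hx with rfl | hx
      · exact ⟨0, by omega, rfl⟩
      · obtain ⟨i, hi, he⟩ := hs _ hx
        exact ⟨i + 1, by omega, he⟩

theorem sub_bare {V W : Type} {D : V → V → Prop} {len : V → ℕ} (h3 : ∀ v, 3 ≤ len v)
    (e : W ≃ Vert len) (v : V) {L : ℕ} (hL : len v = L + 3) :
    HasBarePath ((sub D len).comap e) (L + 1) := by
  let z : ℕ → Vert len := fun q => ⟨(v, min q (L + 2)), by simp only [hL]; omega⟩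
  have z1 : ∀ q, (z q).1.1 = v := fun _ => rfl
  have z2 : ∀ q, (z q).1.2 = min q (L + 2) := fun _ => rfl
  have hadj : ∀ q ≤ L, ∀ y, (sub D len).Adj (z (q + 1)) y ↔ y = z q ∨ y = z (q + 2) := by
    intro q hq y
    rw [sub_adj h3]
    simp only [Arc, z1, z2, hL]
    constructor
    · rintro ((h | h) | (h | h))
      · exact Or.inr (Vert.ext' h.1.symm (by rw [z2]; omega))
      · omega
      · exact Or.inl (Vert.ext' h.1 (by rw [z2]; omega))
      · omega
    · rintro (rfl | rfl)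
      · exact Or.inr (Or.inl ⟨rfl, by rw [z2]; omega⟩)
      · exact Or.inl (Or.inl ⟨rfl, by rw [z2]; omega⟩)
  have hinj : ∀ i ≤ L + 2, ∀ j ≤ L + 2, e.symm (z i) = e.symm (z j) → i = j := by
    intro i hi j hj h
    have := congrArg (fun y : Vert len => y.1.2) (e.symm.injective h)
    simp only [z2] at this
    omega
  obtain ⟨w, hw, hl, hs⟩ := walk_of (G := (sub D len).comap e) L (fun i => e.symm (z (i + 1)))
    (fun i hi => by simpa using (hadj i hi.le _).2 (Or.inr rfl))
    (fun i hi j hj h => by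
      have := hinj _ (by omega) _ (by omega) h
      omega)
  refine ⟨_, _, w, hw, by rw [w.length_support, hl], fun x hx => ?_⟩
  obtain ⟨i, hi, rfl⟩ := hs x hx
  refine Set.ncard_eq_two.2 ⟨e.symm (z i), e.symm (z (i + 2)), fun h => ?_, ?_⟩
  · have := hinj _ (by omega) _ (by omega) h
    omega
  · ext y
    simp [hadj i hi, Equiv.eq_symm_apply]

theorem partC (r : ℕ) (hr : 2 ≤ r) : ∃ C : ℕ, ∀ L : ℕ, 1 ≤ L →
    ∃ G G' : SimpleGraph (Fin (r * L + C)), HasBarePath G L ∧ 0 < hamCount G ∧ hamCount G' = 0 ∧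
      deck G ((r - 1) * L) = deck G' ((r - 1) * L) := by
  obtain ⟨m, rfl⟩ := Nat.exists_eq_add_of_le' hr
  refine ⟨2 * (m + 2) + Fintype.card (Core m) * 3, fun L hL => ?_⟩
  obtain ⟨L, rfl⟩ := Nat.exists_eq_add_of_le' hL
  have : DecidableEq (Node m) := Classical.decEq _
  have hl : 3 ≤ L + 3 := by omega
  have h3 : ∀ v, 3 ≤ nlen m (L + 3) v := by
    rintro (k | c)
    · exact hl
    · exact le_rfl
  have hcard : Fintype.card (Vert (nlen m (L + 3))) =
      (m + 2) * (L + 1) + (2 * (m + 2) + Fintype.card (Core m) * 3) := by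
    rw [card_vert, Fintype.sum_sum_type]
    simp [nlen]
    ring
  let e := (Fintype.equivFinOfCardEq hcard).symm
  obtain ⟨σ, s, v, hs, hr⟩ := exists_directed m
  have hham := ham_of_directed h3 s hs v hr
  have hsign : Equiv.Perm.sign σ = -(-1) ^ (m + 2) := by
    obtain ⟨u, p, hp⟩ := hham
    obtain ⟨g, h1, h2, h4⟩ := directed_of_ham h3 hp
    exact sign_of_directed g h1 h2 h4
  have hne : (0 : Fin (m + 2)) ≠ 1 := by simp
  have hs' : Equiv.Perm.sign (σ * Equiv.swap 0 1) = -Equiv.Perm.sign σ := by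
    simp [Equiv.Perm.sign_swap hne]
  refine ⟨(sub (Dig σ) (nlen m (L + 3))).comap e,
    (sub (Dig (σ * Equiv.swap 0 1)) (nlen m (L + 3))).comap e, sub_bare h3 e (.inl 0) rfl,
    Nat.pos_of_ne_zero fun h => hamCount_eq_zero.1 h ((ham_comap e).2 hham),
    hamCount_eq_zero.2 ?_, deck_eq ((Pool.Agent.P.MP_9d0e7f_co.swappable hl hs' ?_).comap e)⟩
  · rw [ham_comap e]
    rintro ⟨u, p, hp⟩
    obtain ⟨g, h1, h2, h4⟩ := directed_of_ham h3 hp
    have h5 := sign_of_directed g h1 h2 h4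
    rw [hs', hsign] at h5
    rcases Int.units_eq_one_or (-(-1) ^ (m + 2)) with h | h <;> rw [h] at h5 <;>
      exact absurd h5 (by decide)
  · exact Nat.mul_lt_mul_of_pos_left (by omega) (by omega)

end Pool.Agent.P.MP_9d0e7f_co.Sp
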